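import Mathlib

open Polynomial

namespace Pool.Agent.Results.MP_a37635_nt.NoSum

/-- The map `f(z) = z² + z`. -/
def f {R : Type*} [Semiring R] (z : R) : R := z ^ 2 + z

/-- `x` is preperiodic for `f`: its forward orbit is finite. -/
def Preperiodic {R : Type*} [Semiring R] (x : R) : Prop := (Set.range fun n : ℕ => f^[n] x).Finite

lemma Preperiodic.exists_eq {R : Type*} [Semiring R] {x : R} (h : Preperiodic x) :
    ∃ m n : ℕ, m < n ∧ f^[m] x = f^[n] x := by
  obtain ⟨m, n, hmn, e⟩ := Set.Finite.exists_lt_map_eq_of_forall_mem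
    (f := fun n : ℕ => f^[n] x) (fun n => Set.mem_range_self n) h
  exact ⟨m, n, hmn, e⟩

lemma map_iter {R S : Type*} [Semiring R] [Semiring S] (φ : R →+* S) (x : R) (n : ℕ) :
    φ (f^[n] x) = f^[n] (φ x) := by
  induction n with
  | zero => rfl
  | succ n ih => rw [Function.iterate_succ_apply', Function.iterate_succ_apply', ← ih]; simp [f]

lemma poly (n : ℕ) : (f^[n] (X : ℤ[X])).Monic ∧ (f^[n] (X : ℤ[X])).natDegree = 2 ^ n := by
  induction n with
  | zero => simp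
  | succ n ih =>
    rw [Function.iterate_succ_apply', f]
    have h1 : (f^[n] (X : ℤ[X]) ^ 2).natDegree = 2 ^ (n + 1) := by
      rw [ih.1.natDegree_pow, ih.2, pow_succ']
    have h2 : (f^[n] (X : ℤ[X])).natDegree < (f^[n] (X : ℤ[X]) ^ 2).natDegree := by
      rw [h1, ih.2]; exact Nat.pow_lt_pow_right (by norm_num) (by omega)
    exact ⟨(ih.1.pow 2).add_of_left (degree_lt_degree h2), by rw [natDegree_add_eq_left_of_natDegree_lt h2, h1]⟩

lemma integral {R : Type*} [CommRing R] {x : R} {m n : ℕ} (hmn : m < n) (e : f^[m] x = f^[n] x) :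
    IsIntegral ℤ x := by
  refine ⟨f^[n] X - f^[m] X, (poly n).1.sub_of_left (degree_lt_degree ?_), ?_⟩
  · rw [(poly n).2, (poly m).2]; exact Nat.pow_lt_pow_right (by norm_num) hmn
  · have := map_iter (eval₂RingHom (algebraMap ℤ R) x) X
    simp only [coe_eval₂RingHom, eval₂_X] at this
    rw [eval₂_sub, this, this, e, sub_self]

lemma bound {z : ℂ} {m n : ℕ} (hmn : m < n) (e : f^[m] z = f^[n] z) :
    z.re + ‖z‖ ^ 2 ≤ 21 / 16 := by
  have step : ∀ w : ℂ, 5 / 4 < ‖w + 1 / 2‖ → ‖w + 1 / 2‖ < ‖f w + 1 / 2‖ := by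
    intro w hw
    have h1 : (w + 1 / 2) ^ 2 = (f w + 1 / 2) - 1 / 4 := by unfold f; ring
    have h2 : ‖w + 1 / 2‖ ^ 2 ≤ ‖f w + 1 / 2‖ + 1 / 4 := by
      rw [← norm_pow, h1]
      refine (norm_sub_le _ _).trans (le_of_eq ?_)
      norm_num
    nlinarith
  have hle : ‖z + 1 / 2‖ ≤ 5 / 4 := by
    by_contra hlt
    have h1 : ∀ k, 5 / 4 < ‖f^[k] z + 1 / 2‖ := by
      intro k
      induction k with
      | zero => exact not_le.1 hlt
      | succ k ih => rw [Function.iterate_succ_apply']; exact ih.trans (step _ ih)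
    have h2 : StrictMono fun k => ‖f^[k] z + 1 / 2‖ := strictMono_nat_of_lt_succ fun k => by
      simp only [Function.iterate_succ_apply']; exact step _ (h1 k)
    have := h2 hmn
    simp only [e] at this
    exact lt_irrefl _ this
  have h3 : ‖z + 1 / 2‖ ^ 2 = z.re + ‖z‖ ^ 2 + 1 / 4 := by
    rw [Complex.sq_norm, Complex.sq_norm, Complex.normSq_apply, Complex.normSq_apply]
    simp; ring
  nlinarith [norm_nonneg (z + 1 / 2)]

lemma trace_le {L : Type*} [Field L] [NumberField L] {x : L} {m n : ℕ} (hmn : m < n)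
    (e : f^[m] x = f^[n] x) :
    ∑ σ : L →ₐ[ℚ] ℂ, (σ x).re ≤ 5 / 16 * Fintype.card (L →ₐ[ℚ] ℂ) := by
  by_cases hx : x = 0
  · subst hx; simp
  have hb : ∀ σ : L →ₐ[ℚ] ℂ, (σ x).re + ‖σ x‖ ^ 2 ≤ 21 / 16 := fun σ =>
    bound hmn (by
      have h1 := map_iter (σ : L →+* ℂ) x
      simp only [RingHom.coe_coe] at h1
      rw [← h1, ← h1, e])
  have hN : (1 : ℝ) ≤ ∏ σ : L →ₐ[ℚ] ℂ, ‖σ x‖ := by
    rw [← norm_prod, ← Algebra.norm_eq_prod_embeddings]
    have h1 : IsIntegral ℤ (Algebra.norm ℚ x) := Algebra.isIntegral_norm ℚ (integral hmn e)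
    obtain ⟨k, hk⟩ := IsIntegrallyClosed.isIntegral_iff.1 h1
    have h2 : k ≠ 0 := by
      rintro rfl
      exact Algebra.norm_ne_zero_iff.2 hx (by rw [← hk]; simp)
    rw [← hk]
    simp only [eq_intCast, map_intCast, Complex.norm_intCast]
    exact_mod_cast Int.one_le_abs h2
  have hpos : ∀ σ : L →ₐ[ℚ] ℂ, 0 < ‖σ x‖ := fun σ => norm_pos_iff.2 (by simpa using hx)
  have hlog : 0 ≤ ∑ σ : L →ₐ[ℚ] ℂ, Real.log ‖σ x‖ := by
    rw [← Real.log_prod (fun σ _ => (hpos σ).ne')]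
    exact Real.log_nonneg hN
  have h5 : ∑ σ : L →ₐ[ℚ] ℂ, (σ x).re ≤ ∑ σ : L →ₐ[ℚ] ℂ, (5 / 16 - 2 * Real.log ‖σ x‖) := by
    refine Finset.sum_le_sum fun σ _ => ?_
    have h1 := Real.log_le_sub_one_of_pos (pow_pos (hpos σ) 2)
    rw [Real.log_pow] at h1
    have := hb σ
    push_cast at h1
    linarith
  rw [Finset.sum_sub_distrib, ← Finset.mul_sum, Finset.sum_const, Finset.card_univ, nsmul_eq_mul] at h5
  linarith

theorem result : ¬ ∃ a b c : AlgebraicClosure ℚ,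
    Preperiodic a ∧ Preperiodic b ∧ Preperiodic c ∧ a + b + c = 1 := by
  rintro ⟨a, b, c, ha, hb, hc, h⟩
  let L := IntermediateField.adjoin ℚ ({a, b, c} : Set (AlgebraicClosure ℚ))
  have hint : ∀ x : AlgebraicClosure ℚ, Preperiodic x → IsIntegral ℚ x := fun x hx => by
    obtain ⟨m, n, hmn, e⟩ := hx.exists_eq
    exact (integral hmn e).tower_top
  have : FiniteDimensional ℚ L := IntermediateField.finiteDimensional_adjoin fun x hx => by
    rcases hx with rfl | rfl | rfl <;> exact hint _ (by assumption)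
  have : NumberField L := {}
  have key : ∀ x : L, Preperiodic (x : AlgebraicClosure ℚ) →
      ∑ σ : L →ₐ[ℚ] ℂ, (σ x).re ≤ 5 / 16 * Fintype.card (L →ₐ[ℚ] ℂ) := by
    intro x hx
    obtain ⟨m, n, hmn, e⟩ := hx.exists_eq
    refine trace_le hmn (Subtype.coe_injective ?_)
    have h1 := map_iter (algebraMap L (AlgebraicClosure ℚ)) x
    exact (h1 m).trans (e.trans (h1 n).symm)
  let a' : L := ⟨a, IntermediateField.subset_adjoin _ _ (by simp)⟩
  let b' : L := ⟨b, IntermediateField.subset_adjoin _ _ (by simp)⟩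
  let c' : L := ⟨c, IntermediateField.subset_adjoin _ _ (by simp)⟩
  have h' : a' + b' + c' = 1 := Subtype.ext h
  have h1 := key a' ha
  have h2 := key b' hb
  have h3 := key c' hc
  have h4 : ∑ σ : L →ₐ[ℚ] ℂ, (σ a').re + ∑ σ : L →ₐ[ℚ] ℂ, (σ b').re + ∑ σ : L →ₐ[ℚ] ℂ, (σ c').re =
      Fintype.card (L →ₐ[ℚ] ℂ) := by
    rw [← Finset.sum_add_distrib, ← Finset.sum_add_distrib]
    simp only [← Complex.add_re, ← map_add, h', map_one, Complex.one_re]
    simp
  have h5 : (0 : ℝ) < Fintype.card (L →ₐ[ℚ] ℂ) := by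
    rw [AlgHom.card]; exact_mod_cast Module.finrank_pos
  linarith

end Pool.Agent.Results.MP_a37635_nt.NoSum
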